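import Mathlib

/-!
# MP_4423d6_an: the strong form (Q2) for the critical couplings of the Winfree model fails

For `N ≥ 2` take `Ω = (1, 0, …, 0)` and `Θ⁰ = (0, π, …, π)`.  The oscillators `2, …, N` stay at `π` for ever
and exert no force on the first one, which therefore needs a coupling `κ ≥ 3 N / 4` to stop, while
equilibria exist for all `κ > 1`.
-/

set_option autoImplicit false

namespace Pool.Agent.Results.MP_4423d6_an.StrongFormFails

open Set Filter Topology Real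

/-- The right hand side `ω_i - (κ/N) ∑_j (1 + cos θ_j) sin θ_i` of the Winfree model. -/
noncomputable def rhs {N : ℕ} (Ω : Fin N → ℝ) (κ : ℝ) (θ : Fin N → ℝ) (i : Fin N) : ℝ :=
  Ω i - κ / N * (∑ j, (1 + cos (θ j))) * sin (θ i)

/-- `θ` solves the initial value problem on `[0, ∞)`. -/
def IsSolution {N : ℕ} (Ω : Fin N → ℝ) (κ : ℝ) (Θ₀ : Fin N → ℝ) (θ : ℝ → Fin N → ℝ) : Prop :=
  θ 0 = Θ₀ ∧ ∀ t, 0 ≤ t → ∀ i, HasDerivWithinAt (fun s => θ s i) (rhs Ω κ (θ t) i) (Ici 0) t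

/-- The solution from `Θ₀` converges: every phase has a limit in `ℝ`. -/
def SolutionConverges {N : ℕ} (Ω : Fin N → ℝ) (κ : ℝ) (Θ₀ : Fin N → ℝ) : Prop :=
  ∃ θ : ℝ → Fin N → ℝ, IsSolution Ω κ Θ₀ θ ∧ ∀ i, ∃ L : ℝ, Tendsto (fun t => θ t i) atTop (𝓝 L)

/-- The system has an equilibrium. -/
def HasEquilibrium {N : ℕ} (Ω : Fin N → ℝ) (κ : ℝ) : Prop :=
  ∃ θ : Fin N → ℝ, ∀ i, rhs Ω κ θ i = 0

/-- The critical coupling strength `κ_c(Ω)`, with the convention `inf ∅ = ∞`. -/
noncomputable def kc {N : ℕ} (Ω : Fin N → ℝ) : EReal :=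
  sInf {K : EReal | ∃ κ₀ : ℝ, 0 < κ₀ ∧ K = κ₀ ∧ ∀ κ, κ₀ < κ → HasEquilibrium Ω κ}

/-- The pathwise critical coupling strength `κ_pc(Θ₀, Ω)`, with the convention `inf ∅ = ∞`. -/
noncomputable def kpc {N : ℕ} (Θ₀ Ω : Fin N → ℝ) : EReal :=
  sInf {K : EReal | ∃ κ₀ : ℝ, 0 < κ₀ ∧ K = κ₀ ∧ ∀ κ, κ₀ < κ → SolutionConverges Ω κ Θ₀}

lemma trig_bound (x : ℝ) : (1 + cos x) * sin x ≤ 4 / 3 := by
  have h := sin_sq_add_cos_sq x
  have h1 := neg_one_le_cos x
  have h2 := cos_le_one x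
  have h3 : 2 * ((1 + cos x) * sin x) ≤ 3 / 5 * (1 + cos x) ^ 2 + 5 / 3 * sin x ^ 2 := by
    nlinarith [sq_nonneg (3 * (1 + cos x) - 5 * sin x)]
  have h4 : sin x ^ 2 = 1 - cos x ^ 2 := by linarith
  rw [h4] at h3
  nlinarith [sq_nonneg (cos x - 9 / 16)]

/-- The frequencies `(1, 0, …, 0)`. -/
def Om (N : ℕ) (i : Fin N) : ℝ := if i.val = 0 then 1 else 0

/-- The initial phases `(0, π, …, π)`. -/
noncomputable def Th (N : ℕ) (i : Fin N) : ℝ := if i.val = 0 then 0 else π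

lemma sum_bounds {N : ℕ} (θ : Fin N → ℝ) :
    0 ≤ ∑ j, (1 + cos (θ j)) ∧ ∑ j, (1 + cos (θ j)) ≤ 2 * N := by
  constructor
  · exact Finset.sum_nonneg fun j _ => by linarith [neg_one_le_cos (θ j)]
  · calc ∑ j, (1 + cos (θ j)) ≤ ∑ _j : Fin N, (2 : ℝ) :=
        Finset.sum_le_sum fun j _ => by linarith [cos_le_one (θ j)]
      _ = 2 * N := by simp [mul_comm]

lemma stays (N : ℕ) (hN : 2 ≤ N) (κ : ℝ) (hκ : 0 < κ) (θ : ℝ → Fin N → ℝ)
    (hθ : IsSolution (Om N) κ (Th N) θ) (i : Fin N) (hi : i.val ≠ 0) (t : ℝ) (ht : 0 ≤ t) :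
    θ t i = π := by
  obtain ⟨h0, hd⟩ := hθ
  have hN0 : (0 : ℝ) < N := by exact_mod_cast (by omega : 0 < N)
  have hcont : ContinuousOn (fun s => θ s i - π) (Icc 0 t) := fun s hs =>
    (((hd s hs.1 i).continuousWithinAt.mono Icc_subset_Ici_self)).sub continuousWithinAt_const
  have key := norm_le_gronwallBound_of_norm_deriv_right_le (f := fun s => θ s i - π)
    (f' := fun s => rhs (Om N) κ (θ s) i) (δ := 0) (K := 2 * κ) (ε := 0) (a := 0) (b := t) hcont
    (fun s hs => ((hd s hs.1 i).mono (Ici_subset_Ici.2 hs.1)).sub_const π)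
    (by simp [h0, Th, hi])
    (fun s _ => by
      have hs := sum_bounds (θ s)
      have h1 : |sin (θ s i)| ≤ |θ s i - π| := by
        have : sin (θ s i) = - sin (θ s i - π) := by rw [sin_sub_pi]; ring
        rw [this, abs_neg]
        exact abs_sin_le_abs
      simp only [rhs, Om, hi, if_false, zero_sub, norm_eq_abs, abs_neg, add_zero, abs_mul]
      have h2 : |κ / N| * |∑ j, (1 + cos (θ s j))| ≤ 2 * κ := by
        rw [abs_of_pos (by positivity), abs_of_nonneg hs.1]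
        calc κ / N * ∑ j, (1 + cos (θ s j)) ≤ κ / N * (2 * N) :=
              mul_le_mul_of_nonneg_left hs.2 (by positivity)
          _ = 2 * κ := by field_simp
      exact mul_le_mul h2 h1 (abs_nonneg _) (by positivity)) t ⟨ht, le_rfl⟩
  simp only [gronwallBound_ε0_δ0] at key
  have := norm_le_zero_iff.1 key
  linarith

lemma no_conv (N : ℕ) (hN : 2 ≤ N) (κ : ℝ) (hκ : 0 < κ) (hκN : κ < 3 * N / 4) :
    ¬ SolutionConverges (Om N) κ (Th N) := by
  rintro ⟨θ, hθ, hlim⟩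
  have hst := stays N hN κ hκ θ hθ
  obtain ⟨h0, hd⟩ := hθ
  have hN0 : (0 : ℝ) < N := by exact_mod_cast (by omega : 0 < N)
  let o : Fin N := ⟨0, by omega⟩
  have ho : o.val = 0 := rfl
  set c : ℝ := 1 - κ / N * (4 / 3) with hc
  have hc0 : 0 < c := by
    have : κ / N * (4 / 3) < 1 := by
      rw [div_mul_eq_mul_div, div_lt_one hN0]; linarith
    linarith
  have hsum : ∀ t, 0 ≤ t → ∑ j, (1 + cos (θ t j)) = 1 + cos (θ t o) := by
    intro t ht
    rw [Finset.sum_eq_single o]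
    · intro j _ hj
      have : j.val ≠ 0 := fun h => hj (Fin.ext h)
      rw [hst j this t ht, cos_pi]; ring
    · intro h; exact absurd (Finset.mem_univ _) h
  have hrhs : ∀ t, 0 ≤ t → c ≤ rhs (Om N) κ (θ t) o := by
    intro t ht
    unfold rhs
    rw [hsum t ht]
    have h1 : κ / N * ((1 + cos (θ t o)) * sin (θ t o)) ≤ κ / N * (4 / 3) :=
      mul_le_mul_of_nonneg_left (trig_bound _) (by positivity)
    simp only [Om, ho, if_true]
    rw [mul_assoc]
    linarith
  have hmono : MonotoneOn (fun t => θ t o - c * t) (Ici 0) := by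
    apply monotoneOn_of_deriv_nonneg (convex_Ici 0)
    · intro t ht
      exact (hd t ht o).continuousWithinAt.sub (by fun_prop)
    · intro t ht
      rw [interior_Ici] at ht
      have h1 := (hd t (le_of_lt ht) o).hasDerivAt (Ici_mem_nhds ht)
      exact ((h1.sub ((hasDerivAt_id t).const_mul c)).differentiableAt).differentiableWithinAt
    · intro t ht
      rw [interior_Ici] at ht
      have h1 := (hd t (le_of_lt ht) o).hasDerivAt (Ici_mem_nhds ht)
      have h2 := (h1.sub ((hasDerivAt_id t).const_mul c)).deriv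
      have h3 : deriv (fun t => θ t o - c * t) t = rhs (Om N) κ (θ t) o - c * 1 := h2
      rw [h3]
      have := hrhs t (le_of_lt ht)
      linarith
  obtain ⟨L, hL⟩ := hlim o
  have htop : Tendsto (fun t => θ t o) atTop atTop := by
    apply tendsto_atTop_mono' atTop (f₁ := fun t => c * t + θ 0 o)
    · filter_upwards [eventually_ge_atTop (0 : ℝ)] with t ht
      have := hmono (mem_Ici.2 le_rfl) (mem_Ici.2 ht) ht
      simp only [mul_zero, sub_zero] at this
      linarith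
    · exact tendsto_atTop_add_const_right _ _ (tendsto_id.const_mul_atTop hc0)
  exact not_tendsto_nhds_of_tendsto_atTop htop L hL

lemma equilibrium (N : ℕ) (hN : 2 ≤ N) (κ : ℝ) (hκ : 1 < κ) : HasEquilibrium (Om N) κ := by
  have hN0 : (0 : ℝ) < N := by exact_mod_cast (by omega : 0 < N)
  have hN2 : (2 : ℝ) ≤ N := by exact_mod_cast hN
  let o : Fin N := ⟨0, by omega⟩
  have hg : ContinuousOn (fun x : ℝ => κ / N * (2 * N - 1 + cos x) * sin x) (Icc 0 (π / 2)) := by
    fun_prop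
  have h1 : (1 : ℝ) ∈ Icc ((fun x : ℝ => κ / N * (2 * N - 1 + cos x) * sin x) 0)
      ((fun x : ℝ => κ / N * (2 * N - 1 + cos x) * sin x) (π / 2)) := by
    constructor
    · simp
    · simp only [cos_pi_div_two, sin_pi_div_two, add_zero, mul_one]
      rw [div_mul_eq_mul_div, le_div_iff₀ hN0]
      nlinarith
  obtain ⟨x, -, hx⟩ := intermediate_value_Icc (by positivity) hg h1
  simp only at hx
  refine ⟨fun i => if i.val = 0 then x else 0, fun i => ?_⟩
  have hsum : ∑ j : Fin N, (1 + cos (if j.val = 0 then x else 0)) = 2 * N - 1 + cos x := by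
    have : ∀ j : Fin N, (1 + cos (if j.val = 0 then x else 0)) =
        2 + (if j = o then cos x - 1 else 0) := by
      intro j
      by_cases hj : j.val = 0
      · have : j = o := Fin.ext hj
        rw [if_pos hj, if_pos this]; ring
      · have : j ≠ o := fun h => hj (by rw [h])
        rw [if_neg hj, if_neg this, cos_zero]; ring
    rw [Finset.sum_congr rfl fun j _ => this j, Finset.sum_add_distrib,
      Finset.sum_ite_eq' Finset.univ o]
    simp
    ring
  unfold rhs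
  rw [hsum]
  by_cases hi : i.val = 0
  · simp only [Om, hi, if_true]; linarith
  · simp only [Om, hi, if_false, sin_zero]; ring

/-- For every `N ≥ 2` there are `Ω` with `max |ω_i| = 1` and `Θ₀` such that `κ_c(Ω) ≤ 1` but
`κ_pc(Θ₀, Ω) ≥ 3 N / 4`; in particular `κ_c(Ω) ≠ κ_pc(Θ₀, Ω)`. -/
theorem result : ∀ N : ℕ, 2 ≤ N → ∃ Ω Θ₀ : Fin N → ℝ, ‖Ω‖ = 1 ∧ kc Ω ≤ 1 ∧
    ((3 * N / 4 : ℝ) : EReal) ≤ kpc Θ₀ Ω ∧ kc Ω ≠ kpc Θ₀ Ω := by
  intro N hN
  have hN0 : (2 : ℝ) ≤ N := by exact_mod_cast hN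
  have h1 : kc (Om N) ≤ 1 :=
    sInf_le ⟨1, one_pos, by norm_num, fun κ hκ => equilibrium N hN κ hκ⟩
  have h2 : ((3 * N / 4 : ℝ) : EReal) ≤ kpc (Th N) (Om N) := by
    apply le_sInf
    rintro K ⟨κ₀, hκ0, rfl, hK⟩
    rw [EReal.coe_le_coe_iff]
    by_contra hlt
    push Not at hlt
    have := hK ((κ₀ + 3 * N / 4) / 2) (by linarith)
    exact no_conv N hN _ (by positivity) (by linarith) this
  refine ⟨Om N, Th N, ?_, h1, h2, fun h => ?_⟩
  · apply le_antisymm
    · rw [pi_norm_le_iff_of_nonneg zero_le_one]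
      intro i
      unfold Om
      split_ifs <;> simp
    · have := norm_le_pi_norm (Om N) ⟨0, by omega⟩
      simpa [Om] using this
  · rw [← h] at h2
    have h3 := h2.trans h1
    have h4 : ((3 * N / 4 : ℝ) : EReal) ≤ ((1 : ℝ) : EReal) := by simpa using h3
    rw [EReal.coe_le_coe_iff] at h4
    linarith

end Pool.Agent.Results.MP_4423d6_an.StrongFormFails
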